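import Mathlib

/-! The parity lemma for all-star addressings without a full triangle. -/

set_option autoImplicit false

namespace Pool.Agent.Lib.CecStar

open Finset

/-- the ordered sum of a symmetric function with zero diagonal is even -/
theorem two_dvd_sum_sym {V : Type*} [DecidableEq V] (G : V → V → ℤ) (hs : ∀ x y, G x y = G y x)
    (h0 : ∀ x, G x x = 0) (S : Finset V) : (2 : ℤ) ∣ ∑ x ∈ S, ∑ y ∈ S, G x y := by
  induction S using Finset.induction_on with
  | empty => simp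
  | insert z S hz ih =>
    have e : ∑ x ∈ insert z S, ∑ y ∈ insert z S, G x y
        = (∑ x ∈ S, ∑ y ∈ S, G x y) + 2 * ∑ y ∈ S, G z y := by
      rw [sum_insert hz, sum_insert hz, h0 z]
      have h1 : ∑ x ∈ S, ∑ y ∈ insert z S, G x y = ∑ x ∈ S, (G z x + ∑ y ∈ S, G x y) := by
        refine sum_congr rfl fun x _ => ?_
        rw [sum_insert hz, hs x z]
      rw [h1, sum_add_distrib]
      ring
    rw [e]
    exact dvd_add ih (Dvd.intro _ rfl)

/-- the number of ordered triples of distinct elements -/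
theorem sum_distinct {V : Type*} [DecidableEq V] (S : Finset V) :
    ∑ x ∈ S, ∑ y ∈ S, ∑ z ∈ S, (if x ≠ y ∧ x ≠ z ∧ y ≠ z then (1 : ℤ) else 0)
      = (S.card : ℤ) * (S.card - 1) * (S.card - 2) := by
  have h1 : ∀ x ∈ S, ∀ y ∈ S, ∑ z ∈ S, (if x ≠ y ∧ x ≠ z ∧ y ≠ z then (1 : ℤ) else 0)
      = if x = y then 0 else ((S.card : ℤ) - 2) := by
    intro x hx y hy
    by_cases hxy : x = y
    · simp [hxy]
    · rw [if_neg hxy]
      have e : ∑ z ∈ S, (if x ≠ y ∧ x ≠ z ∧ y ≠ z then (1 : ℤ) else 0)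
          = (((S.erase x).erase y).card : ℤ) := by
        rw [sum_boole]
        congr 2
        ext z
        simp only [mem_filter, mem_erase]
        constructor
        · rintro ⟨h1, -, h2, h3⟩
          exact ⟨fun h => h3 h.symm, fun h => h2 h.symm, h1⟩
        · rintro ⟨h1, h2, h3⟩
          exact ⟨h3, hxy, fun h => h2 h.symm, fun h => h1 h.symm⟩
      have hyx : y ∈ S.erase x := mem_erase.2 ⟨fun h => hxy h.symm, hy⟩
      have hc1 := card_erase_add_one hx
      have hc2 := card_erase_add_one hyx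
      rw [e]
      have : (S.card : ℤ) = ((S.erase x).erase y).card + 1 + 1 := by
        rw [← hc1, ← hc2]; push_cast; ring
      rw [this]; ring
  have h2 : ∀ x ∈ S, ∑ y ∈ S, (if x = y then 0 else ((S.card : ℤ) - 2))
      = (S.card - 1) * (S.card - 2) := by
    intro x hx
    have e : ∀ y ∈ S, (if x = y then 0 else ((S.card : ℤ) - 2))
        = ((S.card : ℤ) - 2) - (if x = y then ((S.card : ℤ) - 2) else 0) := by
      intro y _
      by_cases h : x = y <;> simp [h]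
    rw [sum_congr rfl e, sum_sub_distrib, sum_ite_eq, if_pos hx, sum_const, nsmul_eq_mul]
    ring
  calc _ = ∑ x ∈ S, ∑ y ∈ S, (if x = y then 0 else ((S.card : ℤ) - 2)) :=
        sum_congr rfl fun x hx => sum_congr rfl fun y hy => h1 x hx y hy
    _ = ∑ x ∈ S, ((S.card : ℤ) - 1) * (S.card - 2) := sum_congr rfl fun x hx => h2 x hx
    _ = _ := by rw [sum_const, nsmul_eq_mul]; ring

/-- KEY. -/
theorem key_even {V : Type*} [Fintype V] [DecidableEq V] (H : V → V → V → ℤ)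
    (hsym : ∀ v x y, H v x y = H v y x) (h0 : ∀ x y, H x x y = 0)
    (h3 : ∀ x y z, x ≠ y → x ≠ z → y ≠ z → H x y z + H y x z + H z x y = 1)
    (a m : V → ℤ) (ha : (2 : ℤ) ∣ ∑ v, a v)
    (hm : ∀ x y, x ≠ y → ∑ v, a v * H v x y = m x + m y) :
    (2 : ℤ) ∣ ∑ v, a v * m v := by
  classical
  -- replace `H` by a function with zero diagonal
  obtain ⟨F, hF⟩ : ∃ F : V → V → V → ℤ, F = fun v x y => if x = y then 0 else H v x y :=
    ⟨_, rfl⟩
  have Fne : ∀ v x y, x ≠ y → F v x y = H v x y := by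
    intro v x y h; rw [hF]; simp [h]
  have Fd : ∀ v x, F v x x = 0 := by
    intro v x; rw [hF]; simp
  have Fs : ∀ v x y, F v x y = F v y x := by
    intro v x y
    by_cases h : x = y
    · rw [h]
    · rw [Fne v x y h, Fne v y x (fun h' => h h'.symm), hsym]
  have F0 : ∀ x y, F x x y = 0 := by
    intro x y
    by_cases h : x = y
    · rw [h, Fd]
    · rw [Fne x x y h, h0]
  have F0' : ∀ x y, F x y x = 0 := by
    intro x y; rw [Fs, F0]
  have F3 : ∀ x y z, F x y z + F y x z + F z x y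
      = if x ≠ y ∧ x ≠ z ∧ y ≠ z then (1 : ℤ) else 0 := by
    intro x y z
    by_cases h1 : x = y
    · subst h1; simp [F0, Fd]
    by_cases h2 : x = z
    · subst h2; simp [F0, F0', Fd]
    by_cases h4 : y = z
    · subst h4; simp [F0', Fd]
    rw [Fne _ _ _ h4, Fne _ _ _ h2, Fne _ _ _ h1, h3 x y z h1 h2 h4]
    simp [h1, h2, h4]
  -- the odd support
  obtain ⟨S, hS⟩ : ∃ S : Finset V, S = univ.filter (fun v => a v % 2 = 1) := ⟨_, rfl⟩
  obtain ⟨c, hc⟩ : ∃ c : V → ℤ, ∀ v, c v = a v / 2 := ⟨fun v => a v / 2, fun _ => rfl⟩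
  have hac : ∀ v, a v = (if v ∈ S then 1 else 0) + 2 * c v := by
    intro v
    have h1 := Int.emod_two_eq_zero_or_one (a v)
    have h2 := Int.emod_add_mul_ediv (a v) 2
    rw [hc v]
    by_cases hv : v ∈ S
    · rw [if_pos hv]
      rw [hS, mem_filter] at hv
      omega
    · rw [if_neg hv]
      rw [hS, mem_filter] at hv
      have : ¬ a v % 2 = 1 := fun h => hv ⟨mem_univ _, h⟩
      omega
  have hsum : ∀ f : V → ℤ, ∑ v, a v * f v = (∑ v ∈ S, f v) + 2 * ∑ v, c v * f v := by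
    intro f
    have e : ∀ v, a v * f v = (if v ∈ S then f v else 0) + 2 * (c v * f v) := by
      intro v
      rw [hac v]
      by_cases hv : v ∈ S
      · rw [if_pos hv, if_pos hv]; ring
      · rw [if_neg hv, if_neg hv]; ring
    rw [sum_congr rfl fun v _ => e v, sum_add_distrib, mul_sum]
    congr 1
    rw [← sum_filter]
    congr 1
    ext v
    simp
  -- the cardinality of `S` is even
  have hcard : ∃ t : ℤ, (S.card : ℤ) = 2 * t := by
    have h1 := hsum (fun _ => 1)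
    simp only [mul_one, sum_const, nsmul_eq_mul] at h1
    obtain ⟨k, hk⟩ := ha
    exact ⟨k - ∑ v, c v, by rw [hk] at h1; linarith⟩
  obtain ⟨t, ht⟩ := hcard
  -- the triple sum
  obtain ⟨N3, hN3⟩ : ∃ N3 : ℤ, N3 = ∑ x ∈ S, ∑ y ∈ S, ∑ v ∈ S, F v x y := ⟨_, rfl⟩
  have hN3' : 3 * N3 = (S.card : ℤ) * (S.card - 1) * (S.card - 2) := by
    rw [← sum_distinct S]
    have e1 : ∑ x ∈ S, ∑ y ∈ S, ∑ z ∈ S, F x y z = N3 := by
      rw [hN3]
      calc ∑ x ∈ S, ∑ y ∈ S, ∑ z ∈ S, F x y z = ∑ y ∈ S, ∑ x ∈ S, ∑ z ∈ S, F x y z := sum_comm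
        _ = ∑ y ∈ S, ∑ z ∈ S, ∑ x ∈ S, F x y z := sum_congr rfl fun y _ => sum_comm
    have e2 : ∑ x ∈ S, ∑ y ∈ S, ∑ z ∈ S, F y x z = N3 := by
      rw [hN3]
      exact sum_congr rfl fun x _ => sum_comm
    have e3 : ∑ x ∈ S, ∑ y ∈ S, ∑ z ∈ S, F z x y = N3 := hN3.symm
    calc 3 * N3 = ∑ x ∈ S, ∑ y ∈ S, ∑ z ∈ S, F x y z + ∑ x ∈ S, ∑ y ∈ S, ∑ z ∈ S, F y x z
          + ∑ x ∈ S, ∑ y ∈ S, ∑ z ∈ S, F z x y := by rw [e1, e2, e3]; ring
      _ = ∑ x ∈ S, ∑ y ∈ S, ∑ z ∈ S, (F x y z + F y x z + F z x y) := by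
          simp only [sum_add_distrib]
      _ = _ := by
          refine sum_congr rfl fun x _ => sum_congr rfl fun y _ => sum_congr rfl fun z _ => F3 x y z
  have h4 : (4 : ℤ) ∣ N3 := by
    have h5 : (4 : ℤ) ∣ 3 * N3 := by
      rw [hN3', ht]
      exact ⟨t * (t - 1) * (2 * t - 1), by ring⟩
    omega
  -- the pair sum
  obtain ⟨G, hG⟩ : ∃ G : V → V → ℤ, G = fun x y => ∑ v, c v * F v x y := ⟨_, rfl⟩
  have hG2 : (2 : ℤ) ∣ ∑ x ∈ S, ∑ y ∈ S, G x y := by
    refine two_dvd_sum_sym G ?_ ?_ S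
    · intro x y
      rw [hG]
      exact sum_congr rfl fun v _ => by rw [Fs v x y]
    · intro x
      rw [hG]
      simp [Fd]
  obtain ⟨M, hM⟩ : ∃ M : ℤ, M = ∑ x ∈ S, m x := ⟨_, rfl⟩
  have hpair : ∀ x y, (∑ v ∈ S, F v x y) + 2 * G x y
      = (m x + m y) - (if x = y then m x + m y else 0) := by
    intro x y
    rw [hG]
    simp only
    rw [← hsum (fun v => F v x y)]
    by_cases h : x = y
    · subst h
      simp [Fd]
    · rw [if_neg h, sub_zero, ← hm x y h]
      exact sum_congr rfl fun v _ => by rw [Fne v x y h]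
  have htot : N3 + 2 * ∑ x ∈ S, ∑ y ∈ S, G x y = 2 * (S.card - 1) * M := by
    have e1 : N3 + 2 * ∑ x ∈ S, ∑ y ∈ S, G x y
        = ∑ x ∈ S, ∑ y ∈ S, ((∑ v ∈ S, F v x y) + 2 * G x y) := by
      rw [hN3]
      simp only [sum_add_distrib, mul_sum]
    have e2 : ∑ x ∈ S, ∑ y ∈ S, ((∑ v ∈ S, F v x y) + 2 * G x y)
        = ∑ x ∈ S, ∑ y ∈ S, ((m x + m y) - (if x = y then m x + m y else 0)) :=
      sum_congr rfl fun x _ => sum_congr rfl fun y _ => hpair x y
    have e3 : ∀ x ∈ S, ∑ y ∈ S, ((m x + m y) - (if x = y then m x + m y else 0))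
        = S.card * m x + M - 2 * m x := by
      intro x hx
      rw [sum_sub_distrib, sum_ite_eq, if_pos hx, sum_add_distrib, sum_const, nsmul_eq_mul, hM]
      ring
    rw [e1, e2, sum_congr rfl e3, sum_sub_distrib, sum_add_distrib, sum_const, ← mul_sum,
      ← mul_sum, nsmul_eq_mul, ← hM]
    ring
  have hM2 : (2 : ℤ) ∣ M := by
    obtain ⟨g, hg⟩ := hG2
    obtain ⟨q, hq⟩ := h4
    rw [hg, hq, ht] at htot
    have h5 : 2 * q + 2 * g = (2 * t - 1) * M := by linarith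
    exact ⟨t * M - q - g, by linarith⟩
  rw [hsum m, ← hM]
  exact dvd_add hM2 (Dvd.intro _ rfl)

end Pool.Agent.Lib.CecStar
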