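import Mathlib

/-! Integral points of a rational subspace and their reductions mod 2. -/

namespace Pool.Agent.Lib.CecStar

open Finset

/-- the integral points of `U` -/
def intPts {V : Type*} (U : Submodule ℚ (V → ℚ)) : Submodule ℤ (V → ℤ) where
  carrier := {a | (fun v => (a v : ℚ)) ∈ U}
  add_mem' := by
    intro a b ha hb
    have e : (fun v => (((a + b) v : ℤ) : ℚ)) = (fun v => (a v : ℚ)) + fun v => (b v : ℚ) := by
      funext v; simp
    show (fun v => (((a + b) v : ℤ) : ℚ)) ∈ U
    rw [e]
    exact U.add_mem ha hb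
  zero_mem' := by
    show (fun v => (((0 : V → ℤ) v : ℤ) : ℚ)) ∈ U
    have e : (fun v => (((0 : V → ℤ) v : ℤ) : ℚ)) = 0 := by funext v; simp
    rw [e]
    exact U.zero_mem
  smul_mem' := by
    intro c a ha
    have e : (fun v => (((c • a) v : ℤ) : ℚ)) = (c : ℚ) • fun v => (a v : ℚ) := by
      funext v; simp
    show (fun v => (((c • a) v : ℤ) : ℚ)) ∈ U
    rw [e]
    exact U.smul_mem _ ha

theorem mem_intPts {V : Type*} (U : Submodule ℚ (V → ℚ)) (a : V → ℤ) :
    a ∈ intPts U ↔ (fun v => (a v : ℚ)) ∈ U := Iff.rfl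

/-- clearing denominators -/
theorem exists_int {V : Type*} [Fintype V] (u : V → ℚ) :
    ∃ N : ℤ, N ≠ 0 ∧ ∃ a : V → ℤ, ∀ v, (a v : ℚ) = N * u v := by
  classical
  refine ⟨∏ v, ((u v).den : ℤ), ?_, fun v => (u v).num * ∏ w ∈ univ.erase v, ((u w).den : ℤ), ?_⟩
  · exact prod_ne_zero_iff.2 fun v _ => by exact_mod_cast (u v).den_ne_zero
  · intro v
    rw [← mul_prod_erase univ (fun w => ((u w).den : ℤ)) (mem_univ v)]
    push_cast
    have h := Rat.mul_den_eq_num (u v)
    calc ((u v).num : ℚ) * ∏ w ∈ univ.erase v, ((u w).den : ℚ)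
        = (u v * (u v).den) * ∏ w ∈ univ.erase v, ((u w).den : ℚ) := by rw [h]
      _ = _ := by ring

/-- The reductions mod 2 of the integral points of a rational subspace of dimension `k` span a space
of dimension at least `k`. -/
theorem finrank_le_mod_two {V : Type*} [Fintype V] (U : Submodule ℚ (V → ℚ)) :
    Module.finrank ℚ U ≤ Module.finrank (ZMod 2) (Submodule.span (ZMod 2)
      {z : V → ZMod 2 | ∃ a : V → ℤ, (fun v => (a v : ℚ)) ∈ U ∧ z = fun v => (a v : ZMod 2)}) := by
  classical
  let b := Module.Free.chooseBasis ℤ (intPts U)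
  set ι := Module.Free.ChooseBasisIndex ℤ (intPts U)
  -- rational span
  have h1 : Module.finrank ℚ U ≤ Fintype.card ι := by
    have hsub : U ≤ Submodule.span ℚ (Set.range fun i : ι => (fun v => (((b i).1 v : ℤ) : ℚ))) := by
      intro u hu
      obtain ⟨N, hN, a, ha⟩ := exists_int u
      have hNQ : (N : ℚ) ≠ 0 := by exact_mod_cast hN
      have haU : a ∈ intPts U := by
        rw [mem_intPts]
        have e : (fun v => (a v : ℚ)) = (N : ℚ) • u := by
          funext v; rw [ha v]; simp
        rw [e]
        exact U.smul_mem _ hu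
      have hrep := b.sum_repr ⟨a, haU⟩
      have hrep' : ∀ v, a v = ∑ i, b.repr ⟨a, haU⟩ i * (b i).1 v := by
        intro v
        have h2 := congrArg (fun x : intPts U => x.1 v) hrep
        simp only at h2
        have h3 : ∀ g : ι → ℤ, (∑ i, g i • b i : intPts U).1 v = ∑ i, g i * (b i).1 v := by
          intro g
          simp
        exact h2.symm.trans (h3 _)
      have hu' : u = ∑ i, ((b.repr ⟨a, haU⟩ i : ℚ) / N) • (fun v => (((b i).1 v : ℤ) : ℚ)) := by
        funext v
        have h3 : (N : ℚ) * u v = ∑ i, (b.repr ⟨a, haU⟩ i : ℚ) * (((b i).1 v : ℤ) : ℚ) := by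
          rw [← ha v, hrep' v]
          push_cast
          rfl
        rw [Finset.sum_apply]
        simp only [Pi.smul_apply, smul_eq_mul]
        have h4 : ∑ i, (b.repr ⟨a, haU⟩ i : ℚ) / N * (((b i).1 v : ℤ) : ℚ)
            = (∑ i, (b.repr ⟨a, haU⟩ i : ℚ) * (((b i).1 v : ℤ) : ℚ)) / N := by
          rw [Finset.sum_div]
          refine Finset.sum_congr rfl fun i _ => by ring
        rw [h4, ← h3]
        field_simp
      rw [hu']
      exact Submodule.sum_mem _ fun i _ => Submodule.smul_mem _ _ (Submodule.subset_span ⟨i, rfl⟩)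
    exact (Submodule.finrank_mono hsub).trans (finrank_range_le_card _)
  -- reductions are independent
  have h2 : LinearIndependent (ZMod 2) (fun i : ι => (fun v => (((b i).1 v : ℤ) : ZMod 2))) := by
    rw [Fintype.linearIndependent_iff]
    intro g hg
    set c : ι → ℤ := fun i => ((g i).val : ℤ) with hc
    have hcg : ∀ i, ((c i : ℤ) : ZMod 2) = g i := by
      intro i
      simp [hc]
    set s : intPts U := ∑ i, c i • b i with hs
    have hsv : ∀ v, s.1 v = ∑ i, c i * (b i).1 v := by
      intro v
      rw [hs]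
      simp
    have heven : ∀ v, ∃ t : ℤ, s.1 v = 2 * t := by
      intro v
      have h3 : ((s.1 v : ℤ) : ZMod 2) = 0 := by
        rw [hsv v]
        push_cast
        have h4 := congrFun hg v
        rw [Finset.sum_apply] at h4
        simp only [Pi.smul_apply, smul_eq_mul, Pi.zero_apply] at h4
        rw [← h4]
        refine Finset.sum_congr rfl fun i _ => by rw [← hcg i]
      obtain ⟨t, ht⟩ := (ZMod.intCast_zmod_eq_zero_iff_dvd _ 2).1 h3
      exact ⟨t, by exact_mod_cast ht⟩
    choose t ht using heven
    have htU : t ∈ intPts U := by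
      rw [mem_intPts]
      have e : (fun v => (t v : ℚ)) = (1 / 2 : ℚ) • fun v => (s.1 v : ℚ) := by
        funext v
        simp only [Pi.smul_apply, smul_eq_mul]
        rw [ht v]
        push_cast
        ring
      rw [e]
      exact U.smul_mem _ s.2
    have hs2 : s = (2 : ℤ) • (⟨t, htU⟩ : intPts U) := by
      apply Subtype.ext
      funext v
      rw [ht v]
      simp
    intro i
    have h5 : b.repr s i = c i := by
      rw [hs, map_sum]
      simp [Finsupp.single_apply]
    have h6 : b.repr s i = 2 * b.repr ⟨t, htU⟩ i := by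
      rw [hs2, map_zsmul]
      simp
    have h7 : c i = 2 * b.repr ⟨t, htU⟩ i := by rw [← h5, h6]
    rw [← hcg i, h7]
    push_cast
    have : (2 : ZMod 2) = 0 := rfl
    rw [this, zero_mul]
  have h3 : Module.finrank (ZMod 2) (Submodule.span (ZMod 2)
      (Set.range fun i : ι => (fun v => (((b i).1 v : ℤ) : ZMod 2)))) = Fintype.card ι :=
    finrank_span_eq_card h2
  refine h1.trans (h3.symm.le.trans (Submodule.finrank_mono (Submodule.span_mono ?_)))
  rintro z ⟨i, rfl⟩
  exact ⟨(b i).1, (b i).2, rfl⟩

/-- two orthogonal subspaces of `K ^ V` have dimensions adding up to at most `card V` -/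
theorem finrank_add_le_of_dot {K V : Type*} [Field K] [Fintype V] (S T : Submodule K (V → K))
    (h : ∀ z ∈ S, ∀ w ∈ T, ∑ v, z v * w v = 0) :
    Module.finrank K S + Module.finrank K T ≤ Fintype.card V := by
  classical
  let φ : (V → K) →ₗ[K] Module.Dual K (V → K) :=
    LinearMap.mk₂ K (fun w z => ∑ v, z v * w v)
      (fun w w' z => by simp [mul_add, Finset.sum_add_distrib])
      (fun c w z => by simp [Finset.mul_sum, mul_left_comm])
      (fun w z z' => by simp [add_mul, Finset.sum_add_distrib])
      (fun c w z => by simp [Finset.mul_sum, mul_assoc])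
  have hφ : ∀ w z, φ w z = ∑ v, z v * w v := fun w z => rfl
  have hinj : Function.Injective φ := by
    rw [injective_iff_map_eq_zero]
    intro w hw
    funext v
    have h1 := LinearMap.congr_fun hw (Pi.single v 1)
    rw [hφ] at h1
    simpa [Pi.single_apply] using h1
  have hmem : ∀ w ∈ T, φ w ∈ S.dualAnnihilator := by
    intro w hw
    rw [Submodule.mem_dualAnnihilator]
    intro z hz
    rw [hφ]
    exact h z hz w hw
  let ψ : T →ₗ[K] S.dualAnnihilator := LinearMap.codRestrict _ (φ.comp T.subtype)
    (fun w => hmem w.1 w.2)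
  have hψ : Function.Injective ψ := by
    intro w w' hww
    apply Subtype.ext
    apply hinj
    exact congrArg Subtype.val hww
  have h1 := LinearMap.finrank_le_finrank_of_injective hψ
  have h2 := Subspace.finrank_add_finrank_dualAnnihilator_eq S
  rw [Module.finrank_fintype_fun_eq_card] at h2
  omega

/-- If the integral points of two rational subspaces have even dot products, the dimensions add up
to at most `card V`. -/
theorem orth_mod_two {V : Type*} [Fintype V] (U W : Submodule ℚ (V → ℚ))
    (h : ∀ a a' : V → ℤ, (fun v => (a v : ℚ)) ∈ U → (fun v => (a' v : ℚ)) ∈ W →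
      (2 : ℤ) ∣ ∑ v, a v * a' v) :
    Module.finrank ℚ U + Module.finrank ℚ W ≤ Fintype.card V := by
  refine (add_le_add (finrank_le_mod_two U) (finrank_le_mod_two W)).trans
    (finrank_add_le_of_dot _ _ ?_)
  intro z hz w hw
  induction hz using Submodule.span_induction with
  | zero => simp
  | add z z' _ _ h1 h2 => simp [add_mul, Finset.sum_add_distrib, h1, h2]
  | smul c z _ h1 => simp [mul_assoc, ← Finset.mul_sum, h1]
  | mem z hz =>
    obtain ⟨a, ha, rfl⟩ := hz
    induction hw using Submodule.span_induction with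
    | zero => simp
    | add w w' _ _ h1 h2 => simp [mul_add, Finset.sum_add_distrib, h1, h2]
    | smul c w _ h1 => simp [mul_left_comm, ← Finset.mul_sum, h1]
    | mem w hw =>
      obtain ⟨a', ha', rfl⟩ := hw
      have h1 := (ZMod.intCast_zmod_eq_zero_iff_dvd _ 2).2 (by exact_mod_cast h a a' ha ha')
      push_cast at h1
      exact h1

end Pool.Agent.Lib.CecStar
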