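import Mathlib

/-! The rank of the restriction of the hyperbolic form `p q' + q p'` to the image of a linear
map. -/

set_option autoImplicit false

namespace Pool.Agent.Lib.CecStar

open Module

variable {K V : Type*} [Field K] [Fintype V]

/-- the form `Ω((p,q),(p',q')) = ∑ (p q' + q p')` -/
def Om (K V : Type*) [Field K] [Fintype V] :
    ((V → K) × (V → K)) →ₗ[K] ((V → K) × (V → K)) →ₗ[K] K :=
  LinearMap.mk₂ K (fun z z' => ∑ v, (z.1 v * z'.2 v + z.2 v * z'.1 v))
    (fun a b c => by
      rw [← Finset.sum_add_distrib]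
      refine Finset.sum_congr rfl fun v _ => ?_
      simp only [Prod.fst_add, Prod.snd_add, Pi.add_apply]; ring)
    (fun r a b => by
      rw [smul_eq_mul, Finset.mul_sum]
      refine Finset.sum_congr rfl fun v _ => ?_
      simp only [Prod.smul_fst, Prod.smul_snd, Pi.smul_apply, smul_eq_mul]; ring)
    (fun a b c => by
      rw [← Finset.sum_add_distrib]
      refine Finset.sum_congr rfl fun v _ => ?_
      simp only [Prod.fst_add, Prod.snd_add, Pi.add_apply]; ring)
    (fun r a b => by
      rw [smul_eq_mul, Finset.mul_sum]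
      refine Finset.sum_congr rfl fun v _ => ?_
      simp only [Prod.smul_fst, Prod.smul_snd, Pi.smul_apply, smul_eq_mul]; ring)

theorem Om_apply (z z' : (V → K) × (V → K)) :
    Om K V z z' = ∑ v, (z.1 v * z'.2 v + z.2 v * z'.1 v) := rfl

theorem Om_ker : LinearMap.ker (Om K V) = ⊥ := by
  classical
  rw [LinearMap.ker_eq_bot']
  intro z hz
  have h1 : ∀ z' : (V → K) × (V → K), ∑ v, (z.1 v * z'.2 v + z.2 v * z'.1 v) = 0 := fun z' => by
    rw [← Om_apply, hz]; rfl
  refine Prod.ext (funext fun v => ?_) (funext fun v => ?_)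
  · have := h1 (0, Pi.single v 1)
    simpa [Pi.single_apply] using this
  · have := h1 (Pi.single v 1, 0)
    simpa [Pi.single_apply] using this

/-- dimension of the orthogonal space of the image of a linear map -/
theorem finrank_rel {E : Type*} [AddCommGroup E] [Module K E] [FiniteDimensional K E]
    (T : E →ₗ[K] (V → K) × (V → K)) (Rel : Submodule K ((V → K) × (V → K)))
    (hRel : ∀ z, z ∈ Rel ↔ ∀ x, ∑ v, (z.1 v * (T x).2 v + z.2 v * (T x).1 v) = 0) :
    finrank K Rel + finrank K (LinearMap.range T) = 2 * Fintype.card V := by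
  classical
  have hW : finrank K ((V → K) × (V → K)) = 2 * Fintype.card V := by
    rw [finrank_prod, finrank_fintype_fun_eq_card]; ring
  -- `Om` as an isomorphism onto the dual
  have hinj : Function.Injective (Om K V) := LinearMap.ker_eq_bot.1 Om_ker
  let e : ((V → K) × (V → K)) ≃ₗ[K] Dual K ((V → K) × (V → K)) :=
    LinearEquiv.ofInjectiveOfFinrankEq (Om K V) hinj (Subspace.dual_finrank_eq).symm
  have he : ∀ z z', e z z' = Om K V z z' := fun z z' => rfl
  have h1 : Rel.map (e : ((V → K) × (V → K)) →ₗ[K] Dual K ((V → K) × (V → K))) =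
      (LinearMap.range T).dualAnnihilator := by
    ext f
    rw [Submodule.mem_map, Submodule.mem_dualAnnihilator]
    constructor
    · rintro ⟨z, hz, rfl⟩ w ⟨x, rfl⟩
      exact (hRel z).1 hz x
    · intro hf
      refine ⟨e.symm f, (hRel _).2 fun x => ?_, by simp⟩
      have h2 := hf (T x) ⟨x, rfl⟩
      have h3 : e (e.symm f) (T x) = 0 := by rw [LinearEquiv.apply_symm_apply]; exact h2
      exact h3
  have h2 : finrank K (Rel.map (e : ((V → K) × (V → K)) →ₗ[K] Dual K ((V → K) × (V → K)))) =
      finrank K Rel := LinearEquiv.finrank_map_eq e Rel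
  have h3 := Subspace.finrank_add_finrank_dualAnnihilator_eq (LinearMap.range T)
  rw [← h1, h2, hW] at h3
  omega

/-- **The rank of the form.** -/
theorem finrank_form {E : Type*} [AddCommGroup E] [Module K E] [FiniteDimensional K E]
    (T : E →ₗ[K] (V → K) × (V → K)) (M : E →ₗ[K] E →ₗ[K] K) (c : K) (hc : c ≠ 0)
    (hM : ∀ x x', M x x' = c * ∑ v, ((T x).1 v * (T x').2 v + (T x).2 v * (T x').1 v))
    (Rel : Submodule K ((V → K) × (V → K)))
    (hRel : ∀ z, z ∈ Rel ↔ ∀ x, ∑ v, (z.1 v * (T x).2 v + z.2 v * (T x).1 v) = 0) :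
    finrank K (LinearMap.range M) + finrank K Rel +
      finrank K (Rel ⊓ LinearMap.range T : Submodule K ((V → K) × (V → K))) =
      2 * Fintype.card V := by
  classical
  have h1 := finrank_rel T Rel hRel
  have h2 := LinearMap.finrank_range_add_finrank_ker M
  have h3 := LinearMap.finrank_range_add_finrank_ker T
  have hker : LinearMap.ker M = Rel.comap T := by
    ext x
    rw [LinearMap.mem_ker, Submodule.mem_comap, hRel]
    constructor
    · intro h x'
      have h4 : M x x' = 0 := by rw [h]; rfl
      rw [hM] at h4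
      exact (mul_eq_zero.1 h4).resolve_left hc
    · intro h
      ext x'
      rw [hM, h x', mul_zero]; rfl
  -- the restriction of `T` to the comap
  let T' : Rel.comap T →ₗ[K] (V → K) × (V → K) := T.domRestrict (Rel.comap T)
  have h5 := LinearMap.finrank_range_add_finrank_ker T'
  have h6 : LinearMap.range T' = Rel ⊓ LinearMap.range T := by
    ext z
    constructor
    · rintro ⟨x, rfl⟩
      exact ⟨x.2, x.1, rfl⟩
    · rintro ⟨hz, x, rfl⟩
      exact ⟨⟨x, hz⟩, rfl⟩
  have h7 : finrank K (LinearMap.ker T') = finrank K (LinearMap.ker T) := by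
    have hle : LinearMap.ker T ≤ Rel.comap T := by
      intro x hx
      rw [Submodule.mem_comap, LinearMap.mem_ker.1 hx]
      exact Rel.zero_mem
    have h8 : LinearMap.ker T' = (LinearMap.ker T).comap (Rel.comap T).subtype := by
      ext x
      simp [T']
    rw [h8]
    exact (Submodule.comapSubtypeEquivOfLe hle).finrank_eq
  rw [h6, h7] at h5
  rw [hker] at h2
  omega

/-- The elements of the radical are orthogonal to `Rel`. -/
theorem Om_radical {E : Type*} [AddCommGroup E] [Module K E]
    (T : E →ₗ[K] (V → K) × (V → K)) (Rel : Submodule K ((V → K) × (V → K)))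
    (hRel : ∀ z, z ∈ Rel ↔ ∀ x, ∑ v, (z.1 v * (T x).2 v + z.2 v * (T x).1 v) = 0)
    {z z' : (V → K) × (V → K)} (hz : z ∈ Rel ⊓ LinearMap.range T) (hz' : z' ∈ Rel) :
    ∑ v, (z.1 v * z'.2 v + z.2 v * z'.1 v) = 0 := by
  obtain ⟨-, x, rfl⟩ := hz
  have := (hRel z').1 hz' x
  rw [← this]
  refine Finset.sum_congr rfl fun v _ => ?_
  ring

end Pool.Agent.Lib.CecStar
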