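import Mathlib

/-! The rank of a sum of products of linear functionals. -/

set_option autoImplicit false

namespace Pool.Agent.Lib.CecStar

open Module

/-- A symmetrised sum of `|J|` products of two linear functionals has rank at most `2 |J|`. -/
theorem finrank_sum_le {K E J : Type*} [Field K] [AddCommGroup E] [Module K E]
    [FiniteDimensional K E] [Fintype J] (X Y : J → E →ₗ[K] K) (M : E →ₗ[K] E →ₗ[K] K)
    (hM : ∀ x x', M x x' = ∑ j, (X j x * Y j x' + Y j x * X j x')) :
    finrank K (LinearMap.range M) ≤ 2 * Fintype.card J := by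
  classical
  let b : J ⊕ J → (E →ₗ[K] K) := Sum.elim X Y
  have h1 : LinearMap.range M ≤ Submodule.span K (Set.range b) := by
    rintro f ⟨x, rfl⟩
    have h2 : M x = ∑ j, (X j x • Y j + Y j x • X j) := by
      ext x'
      rw [hM]
      simp [LinearMap.sum_apply]
    rw [h2]
    refine Submodule.sum_mem _ fun j _ => Submodule.add_mem _ ?_ ?_
    · exact Submodule.smul_mem _ _ (Submodule.subset_span ⟨Sum.inr j, rfl⟩)
    · exact Submodule.smul_mem _ _ (Submodule.subset_span ⟨Sum.inl j, rfl⟩)
  have h3 := Submodule.finrank_mono h1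
  have h4 : (Set.range b).finrank K ≤ Fintype.card (J ⊕ J) := finrank_range_le_card b
  rw [Fintype.card_sum] at h4
  unfold Set.finrank at h4
  omega

end Pool.Agent.Lib.CecStar
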